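import Mathlib

/-!
# MP_a4d28a_co : the dual of the neighborly sphere `M` is not a 3-complex

Proof. Let `X_u` (`u = A, …, H`) be the cells and `p_t` (`t` a tetrahedron of `M`) the vertices of a
3-complex in `ℝ^n` equivalent to `M*`.

* At the vertex `p_t` farthest from the origin the four edge directions are linearly independent:
  otherwise splitting a linear relation into its positive and negative part gives a common point of
  two complementary faces at `p_t`.
* If two cells `X_u ≠ X_v` have the same affine hull, then (`M` is simple and neighborly) all cells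
  have the same affine hull, in contradiction with the first step. So all the hyperplanes `H_u` are
  distinct, the complex lies in a 4-dimensional space, and for each `u` the functional `ℓ_u` defining
  `H_u` vanishes on `X_v` exactly on the common face of `X_u` and `X_v`, without change of sign. As `M` is neighborly, `ℓ_u > 0` at all
  vertices outside `X_u`.
* So `ℓ_u(p_t) = 0` for `u ∈ t` and `ℓ_u(p_t) > 0` for `u ∉ t`, and the eight functionals lie in a
  5-dimensional space. Writing `ℓ_G` and `ℓ_H` as combinations of `ℓ_A, ℓ_C, ℓ_D, ℓ_E, ℓ_F` and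
  evaluating at eight vertices gives a contradiction of signs.
-/

set_option autoImplicit false

namespace Pool.Agent.Results.MP_a4d28a_co.NotComplex

open Set
open scoped RealInnerProductSpace

/-- The 20 tetrahedra of `M`; the vertices `A, …, H` are `0, …, 7`. -/
def fac : Fin 20 → Finset (Fin 8) :=
  ![{0, 1, 2, 3}, {0, 1, 2, 5}, {0, 1, 3, 5}, {0, 2, 3, 6}, {0, 2, 5, 7}, {0, 2, 6, 7},
    {0, 3, 4, 5}, {0, 3, 4, 6}, {0, 4, 5, 7}, {0, 4, 6, 7}, {1, 2, 3, 7}, {1, 2, 4, 5},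
    {1, 2, 4, 7}, {1, 3, 5, 6}, {1, 3, 6, 7}, {1, 4, 5, 6}, {1, 4, 6, 7}, {2, 3, 6, 7},
    {2, 4, 5, 7}, {3, 4, 5, 6}]

/-- The nonempty faces of `M`. -/
def IsFaceM (σ : Finset (Fin 8)) : Prop := σ.Nonempty ∧ ∃ t, σ ⊆ fac t

/-- Euclidean `n`-space. -/
abbrev E (n : ℕ) := EuclideanSpace ℝ (Fin n)

/-- Convex polytopes (nonempty): convex hulls of finite nonempty sets. -/
def IsPolytope {n : ℕ} (K : Set (E n)) : Prop :=
  ∃ V : Finset (E n), V.Nonempty ∧ K = convexHull ℝ (V : Set (E n))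

/-- `F` is a nonempty face of `K` (`K` itself is allowed, take `a = 0`). -/
def IsFaceOf {n : ℕ} (F K : Set (E n)) : Prop :=
  F.Nonempty ∧ ∃ (a : E n) (m : ℝ), (∀ x ∈ K, ⟪a, x⟫ ≤ m) ∧ F = {x | x ∈ K ∧ ⟪a, x⟫ = m}

/-- The nonempty members of a 3-complex in `ℝ^n`. -/
structure IsThreeComplex {n : ℕ} (C : Set (Set (E n))) : Prop where
  finite : C.Finite
  polytope : ∀ K ∈ C, IsPolytope K
  face_mem : ∀ K ∈ C, ∀ F, IsFaceOf F K → F ∈ C
  inter : ∀ K ∈ C, ∀ L ∈ C, (K ∩ L).Nonempty → IsFaceOf (K ∩ L) K ∧ IsFaceOf (K ∩ L) L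
  dim_le : ∀ K ∈ C, Module.finrank ℝ (vectorSpan ℝ K) ≤ 3
  exists_dim : ∃ K ∈ C, Module.finrank ℝ (vectorSpan ℝ K) = 3

/-! ### combinatorics of `M` -/

lemma nb_exists : ∀ (t : Fin 20) (x : Fin 8), ∃ s : Fin 20, x ∈ fac t →
    ((fac t).erase x ⊆ fac s ∧ x ∉ fac s) := by decide +kernel

lemma fac_card : ∀ t : Fin 20, (fac t).card = 4 := by decide +kernel

lemma pair_mem : ∀ u v : Fin 8, ∃ t : Fin 20, u ∈ fac t ∧ v ∈ fac t := by decide +kernel

lemma pair_avoid : ∀ u v w : Fin 8, w ≠ u → w ≠ v →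
    ∃ t : Fin 20, u ∈ fac t ∧ v ∈ fac t ∧ w ∉ fac t := by decide +kernel

lemma two_share : ∀ t s : Fin 20, ∃ r : Fin 20,
    (∃ a b : Fin 8, a ≠ b ∧ a ∈ fac t ∧ b ∈ fac t ∧ a ∈ fac r ∧ b ∈ fac r) ∧
    (∃ a b : Fin 8, a ≠ b ∧ a ∈ fac r ∧ b ∈ fac r ∧ a ∈ fac s ∧ b ∈ fac s) := by
  decide +kernel

lemma fac_inj : ∀ s t : Fin 20, fac s ⊆ fac t → s = t := by decide +kernel

/-! ### the geometric data -/

/-- What is used of a 3-complex equivalent to `M*`; `X σ` is the member corresponding to `σ`. -/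
structure Geo {n : ℕ} (X : Finset (Fin 8) → Set (E n)) : Prop where
  conv : ∀ σ, IsFaceM σ → Convex ℝ (X σ)
  ne : ∀ σ, IsFaceM σ → (X σ).Nonempty
  sub : ∀ σ τ, IsFaceM σ → IsFaceM τ → (X σ ⊆ X τ ↔ τ ⊆ σ)
  exposed : ∀ σ τ, IsFaceM σ → IsFaceM τ → τ ⊆ σ → ∃ (a : E n) (m : ℝ),
    (∀ x ∈ X τ, ⟪a, x⟫ ≤ m) ∧ X σ = {x | x ∈ X τ ∧ ⟪a, x⟫ = m}
  inter : ∀ σ τ, IsFaceM σ → IsFaceM τ → (X σ ∩ X τ).Nonempty →
    IsFaceM (σ ∪ τ) ∧ X σ ∩ X τ = X (σ ∪ τ)
  dim : ∀ σ, IsFaceM σ → Module.finrank ℝ (vectorSpan ℝ (X σ)) ≤ 3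

lemma geo_of_complex {n : ℕ} {C : Set (Set (E n))} (hC : IsThreeComplex C)
    (φ : {σ : Finset (Fin 8) // IsFaceM σ} ≃ C)
    (hφ : ∀ σ τ, (φ σ : Set (E n)) ⊆ φ τ ↔ (τ : Finset (Fin 8)) ⊆ σ) :
    ∃ X : Finset (Fin 8) → Set (E n), Geo X := by
  classical
  refine ⟨fun σ => if h : IsFaceM σ then φ ⟨σ, h⟩ else ∅, ?_⟩
  have hX : ∀ σ (h : IsFaceM σ), (if h : IsFaceM σ then (φ ⟨σ, h⟩ : Set (E n)) else ∅)
      = φ ⟨σ, h⟩ := fun σ h => dif_pos h
  have hne : ∀ σ : {σ : Finset (Fin 8) // IsFaceM σ}, (φ σ : Set (E n)).Nonempty := by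
    intro σ
    obtain ⟨V, hV, hK⟩ := hC.polytope _ (φ σ).2
    rw [hK]
    exact convexHull_nonempty_iff.2 hV
  refine ⟨fun σ h => ?_, fun σ h => ?_, fun σ τ hσ hτ => ?_, fun σ τ hσ hτ hs => ?_,
    fun σ τ hσ hτ hn => ?_, fun σ h => ?_⟩
  · rw [hX σ h]
    obtain ⟨V, hV, hK⟩ := hC.polytope _ (φ ⟨σ, h⟩).2
    rw [hK]
    exact convex_convexHull ℝ _
  · rw [hX σ h]; exact hne _
  · rw [hX σ hσ, hX τ hτ]; exact hφ _ _
  · rw [hX σ hσ, hX τ hτ]
    have hsub : (φ ⟨σ, hσ⟩ : Set (E n)) ⊆ φ ⟨τ, hτ⟩ := (hφ _ _).2 hs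
    have hI := (hC.inter _ (φ ⟨σ, hσ⟩).2 _ (φ ⟨τ, hτ⟩).2 (by
      rw [inter_eq_left.2 hsub]; exact hne _)).2
    rw [inter_eq_left.2 hsub] at hI
    exact hI.2
  · rw [hX σ hσ, hX τ hτ] at hn ⊢
    have hI := hC.inter _ (φ ⟨σ, hσ⟩).2 _ (φ ⟨τ, hτ⟩).2 hn
    have hmem := hC.face_mem _ (φ ⟨σ, hσ⟩).2 _ hI.1
    obtain ⟨ρ, hρ⟩ := φ.surjective ⟨_, hmem⟩
    have hρ' : (φ ρ : Set (E n)) = (φ ⟨σ, hσ⟩ : Set (E n)) ∩ (φ ⟨τ, hτ⟩ : Set (E n)) := by
      rw [hρ]
    have h1 : σ ⊆ (ρ : Finset (Fin 8)) := (hφ ρ ⟨σ, hσ⟩).1 (by rw [hρ']; exact inter_subset_left)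
    have h2 : τ ⊆ (ρ : Finset (Fin 8)) := (hφ ρ ⟨τ, hτ⟩).1 (by rw [hρ']; exact inter_subset_right)
    have h3 : σ ∪ τ ⊆ (ρ : Finset (Fin 8)) := Finset.union_subset h1 h2
    have h4 : IsFaceM (σ ∪ τ) := by
      obtain ⟨t, ht⟩ := ρ.2.2
      exact ⟨hσ.1.mono Finset.subset_union_left, t, h3.trans ht⟩
    refine ⟨h4, ?_⟩
    rw [hX _ h4]
    apply Subset.antisymm
    · rw [← hρ']
      exact (hφ ρ ⟨σ ∪ τ, h4⟩).2 h3
    · exact subset_inter ((hφ ⟨σ ∪ τ, h4⟩ ⟨σ, hσ⟩).2 Finset.subset_union_left)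
        ((hφ ⟨σ ∪ τ, h4⟩ ⟨τ, hτ⟩).2 Finset.subset_union_right)
  · rw [hX σ h]; exact hC.dim_le _ (φ ⟨σ, h⟩).2

variable {n : ℕ} {X : Finset (Fin 8) → Set (E n)}

lemma isFaceM_of {σ : Finset (Fin 8)} {t : Fin 20} (h : σ.Nonempty) (hs : σ ⊆ fac t) :
    IsFaceM σ := ⟨h, t, hs⟩

lemma fac_ne (t : Fin 20) : (fac t).Nonempty := by
  rw [← Finset.card_pos, fac_card]; norm_num

lemma fac_face (t : Fin 20) : IsFaceM (fac t) := ⟨fac_ne t, t, subset_rfl⟩

lemma inner_vS {a : E n} {m : ℝ} {K : Set (E n)} (h : ∀ x ∈ K, ⟪a, x⟫ = m) {v : E n}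
    (hv : v ∈ vectorSpan ℝ K) : ⟪a, v⟫ = 0 := by
  rw [vectorSpan_def] at hv
  induction hv using Submodule.span_induction with
  | mem v hv =>
    obtain ⟨x, hx, y, hy, rfl⟩ := hv
    simp only [vsub_eq_sub, inner_sub_right, h x hx, h y hy, sub_self]
  | zero => simp
  | add a b _ _ ha hb => rw [inner_add_right, ha, hb, add_zero]
  | smul a x _ hx => rw [inner_smul_right, hx, mul_zero]

/-- a point of a bigger cell in the affine span of the face lies on the face -/
lemma mem_of_vS (hX : Geo X) {σ τ : Finset (Fin 8)} (hσ : IsFaceM σ) (hτ : IsFaceM τ)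
    (hs : τ ⊆ σ) {x y : E n} (hx : x ∈ X σ) (hy : y ∈ X τ)
    (h : y - x ∈ vectorSpan ℝ (X σ)) : y ∈ X σ := by
  obtain ⟨a, m, h1, h2⟩ := hX.exposed σ τ hσ hτ hs
  have h3 : ∀ x ∈ X σ, ⟪a, x⟫ = m := fun x hx => by rw [h2] at hx; exact hx.2
  have h4 := inner_vS h3 h
  rw [inner_sub_right, h3 x hx, sub_eq_zero] at h4
  rw [h2]
  exact ⟨hy, h4⟩

lemma finrank_lt (hX : Geo X) {σ τ : Finset (Fin 8)} (hσ : IsFaceM σ) (hτ : IsFaceM τ)
    (hs : τ ⊂ σ) : Module.finrank ℝ (vectorSpan ℝ (X σ)) < Module.finrank ℝ (vectorSpan ℝ (X τ)) := by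
  have hsub : X σ ⊆ X τ := (hX.sub σ τ hσ hτ).2 hs.1
  apply Submodule.finrank_lt_finrank_of_lt
  refine lt_of_le_of_ne (vectorSpan_mono ℝ hsub) fun he => ?_
  have hns : ¬ X τ ⊆ X σ := fun h => hs.2 ((hX.sub τ σ hτ hσ).1 h)
  obtain ⟨y, hy, hyσ⟩ := not_subset.1 hns
  obtain ⟨x, hx⟩ := hX.ne σ hσ
  apply hyσ
  apply mem_of_vS hX hσ hτ hs.1 hx hy
  rw [he]
  exact vsub_mem_vectorSpan ℝ hy (hsub hx)

lemma finrank_ub (hX : Geo X) : ∀ (k : ℕ) (σ : Finset (Fin 8)), σ.card = k + 1 → IsFaceM σ →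
    Module.finrank ℝ (vectorSpan ℝ (X σ)) ≤ 3 - k := by
  intro k
  induction k with
  | zero => intro σ _ h; exact hX.dim σ h
  | succ k ih =>
    intro σ hc h
    obtain ⟨x, hx⟩ := h.1
    have hne : (σ.erase x).Nonempty := by
      rw [← Finset.card_pos, Finset.card_erase_of_mem hx]; omega
    obtain ⟨t, ht⟩ := h.2
    have hf : IsFaceM (σ.erase x) := ⟨hne, t, (Finset.erase_subset _ _).trans ht⟩
    have h1 := ih (σ.erase x) (by rw [Finset.card_erase_of_mem hx]; omega) hf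
    have h2 := finrank_lt hX h hf (Finset.erase_ssubset hx)
    omega

lemma finrank_lb (hX : Geo X) (t : Fin 20) : ∀ (k : ℕ) (σ : Finset (Fin 8)), σ.card + k = 4 →
    σ.Nonempty → σ ⊆ fac t → k ≤ Module.finrank ℝ (vectorSpan ℝ (X σ)) := by
  intro k
  induction k with
  | zero => intros; exact Nat.zero_le _
  | succ k ih =>
    intro σ hc hne hs
    have hlt : σ.card < (fac t).card := by rw [fac_card]; omega
    obtain ⟨x, hx, hxσ⟩ := Finset.exists_mem_notMem_of_card_lt_card hlt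
    have hs' : insert x σ ⊆ fac t := Finset.insert_subset hx hs
    have h1 := ih (insert x σ) (by rw [Finset.card_insert_of_notMem hxσ]; omega)
      (Finset.insert_nonempty _ _) hs'
    have h2 := finrank_lt hX (isFaceM_of (Finset.insert_nonempty _ _) hs') (isFaceM_of hne hs)
      (Finset.ssubset_insert hxσ)
    omega

lemma finrank_eq (hX : Geo X) {t : Fin 20} {σ : Finset (Fin 8)} (hne : σ.Nonempty)
    (hs : σ ⊆ fac t) : Module.finrank ℝ (vectorSpan ℝ (X σ)) + σ.card = 4 := by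
  have hc : σ.card ≤ 4 := by rw [← fac_card t]; exact Finset.card_le_card hs
  have hc0 : 0 < σ.card := Finset.card_pos.2 hne
  have h1 := finrank_ub hX (σ.card - 1) σ (by omega) (isFaceM_of hne hs)
  have h2 := finrank_lb hX t (4 - σ.card) σ (by omega) hne hs
  omega

/-- the vertices -/
noncomputable def pt (hX : Geo X) (t : Fin 20) : E n := (hX.ne (fac t) (fac_face t)).some

lemma pt_mem_self (hX : Geo X) (t : Fin 20) : pt hX t ∈ X (fac t) :=
  (hX.ne (fac t) (fac_face t)).some_mem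

lemma X_fac (hX : Geo X) (t : Fin 20) : X (fac t) = {pt hX t} := by
  apply Subset.antisymm
  · intro y hy
    have h1 := finrank_eq hX (fac_ne t) (subset_refl (fac t))
    rw [fac_card] at h1
    have h2 : Module.finrank ℝ (vectorSpan ℝ (X (fac t))) = 0 := by omega
    rw [Submodule.finrank_eq_zero] at h2
    have h3 := vsub_mem_vectorSpan ℝ hy (pt_mem_self hX t)
    rw [h2, Submodule.mem_bot, vsub_eq_sub, sub_eq_zero] at h3
    exact h3
  · rw [singleton_subset_iff]; exact pt_mem_self hX t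

lemma pt_mem (hX : Geo X) {t : Fin 20} {σ : Finset (Fin 8)} (hσ : IsFaceM σ) :
    pt hX t ∈ X σ ↔ σ ⊆ fac t := by
  rw [← singleton_subset_iff, ← X_fac hX t]
  exact hX.sub _ _ (fac_face t) hσ

/-- the neighbour of the tetrahedron `t` across the facet opposite to `x` -/
noncomputable def nb (t : Fin 20) (x : Fin 8) : Fin 20 := (nb_exists t x).choose

lemma nb_spec {t : Fin 20} {x : Fin 8} (h : x ∈ fac t) :
    (fac t).erase x ⊆ fac (nb t x) ∧ x ∉ fac (nb t x) := (nb_exists t x).choose_spec h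

/-- the edge vector at the vertex `t` leaving the cell of `x` -/
noncomputable def ee (hX : Geo X) (t : Fin 20) (x : Fin 8) : E n := pt hX (nb t x) - pt hX t

lemma ee_mem (hX : Geo X) {t : Fin 20} {x : Fin 8} (hx : x ∈ fac t) {σ : Finset (Fin 8)}
    (hne : σ.Nonempty) (hs : σ ⊆ fac t) (hxσ : x ∉ σ) : ee hX t x ∈ vectorSpan ℝ (X σ) := by
  have hσ := isFaceM_of hne hs
  apply vsub_mem_vectorSpan
  · rw [pt_mem hX hσ]
    exact (Finset.subset_erase.2 ⟨hs, hxσ⟩).trans (nb_spec hx).1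
  · rw [pt_mem hX hσ]; exact hs

lemma ee_notMem (hX : Geo X) {t : Fin 20} {x : Fin 8} (hx : x ∈ fac t) {σ : Finset (Fin 8)}
    (hne : (σ.erase x).Nonempty) (hs : σ ⊆ fac t) (hxσ : x ∈ σ) :
    ee hX t x ∉ vectorSpan ℝ (X σ) := by
  intro h
  have hσ : IsFaceM σ := isFaceM_of ⟨x, hxσ⟩ hs
  have hτ : IsFaceM (σ.erase x) := isFaceM_of hne ((Finset.erase_subset _ _).trans hs)
  have h1 : pt hX (nb t x) ∈ X (σ.erase x) := by
    rw [pt_mem hX hτ]
    exact (Finset.erase_subset_erase x hs).trans (nb_spec hx).1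
  have h2 := mem_of_vS hX hσ hτ (Finset.erase_subset _ _) ((pt_mem hX hσ).2 hs) h1 h
  rw [pt_mem hX hσ] at h2
  exact (nb_spec hx).2 (h2 hxσ)

/-- the cells are spanned by the edges at a vertex -/
lemma vS_le_span (hX : Geo X) (t : Fin 20) : ∀ (k : ℕ) (σ : Finset (Fin 8)), σ.card + k = 4 →
    σ.Nonempty → σ ⊆ fac t →
    vectorSpan ℝ (X σ) ≤ Submodule.span ℝ (ee hX t '' {x | x ∈ fac t ∧ x ∉ σ}) := by
  intro k
  induction k with
  | zero =>
    intro σ hc hne hs
    have h1 := finrank_eq hX hne hs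
    have h2 : Module.finrank ℝ (vectorSpan ℝ (X σ)) = 0 := by omega
    rw [Submodule.finrank_eq_zero] at h2
    rw [h2]; exact bot_le
  | succ k ih =>
    intro σ hc hne hs
    have hlt : σ.card < (fac t).card := by rw [fac_card]; omega
    obtain ⟨x, hx, hxσ⟩ := Finset.exists_mem_notMem_of_card_lt_card hlt
    have hs' : insert x σ ⊆ fac t := Finset.insert_subset hx hs
    have hcard' : (insert x σ).card = σ.card + 1 := Finset.card_insert_of_notMem hxσ
    have h1 := ih (insert x σ) (by omega) (Finset.insert_nonempty _ _) hs'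
    have h2 := finrank_eq hX hne hs
    have h3 := finrank_eq hX (Finset.insert_nonempty x σ) hs'
    have hsub : X (insert x σ) ⊆ X σ :=
      (hX.sub _ _ (isFaceM_of (Finset.insert_nonempty _ _) hs') (isFaceM_of hne hs)).2
        (Finset.subset_insert _ _)
    have h4 : ee hX t x ∈ vectorSpan ℝ (X σ) := ee_mem hX hx hne hs hxσ
    have h5 : ee hX t x ∉ vectorSpan ℝ (X (insert x σ)) := by
      apply ee_notMem hX hx _ hs' (Finset.mem_insert_self _ _)
      rw [Finset.erase_insert hxσ]; exact hne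
    have h6 : vectorSpan ℝ (X (insert x σ)) ⊔ Submodule.span ℝ {ee hX t x}
        ≤ vectorSpan ℝ (X σ) := by
      apply sup_le (vectorSpan_mono ℝ hsub)
      rw [Submodule.span_singleton_le_iff_mem]; exact h4
    have h7 : vectorSpan ℝ (X (insert x σ)) <
        vectorSpan ℝ (X (insert x σ)) ⊔ Submodule.span ℝ {ee hX t x} := by
      refine lt_of_le_of_ne le_sup_left fun he => h5 ?_
      rw [he]
      exact Submodule.mem_sup_right (Submodule.mem_span_singleton_self _)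
    have h8 := Submodule.finrank_lt_finrank_of_lt h7
    have h9 := Submodule.eq_of_le_of_finrank_le h6 (by omega)
    rw [← h9]
    apply sup_le
    · refine h1.trans (Submodule.span_mono (image_mono ?_))
      rintro y ⟨hy1, hy2⟩
      exact ⟨hy1, fun h => hy2 (Finset.mem_insert_of_mem h)⟩
    · rw [Submodule.span_singleton_le_iff_mem]
      exact Submodule.subset_span ⟨x, ⟨hx, hxσ⟩, rfl⟩

/-! ### the farthest vertex -/

lemma pt_inj (hX : Geo X) {s t : Fin 20} (h : pt hX s = pt hX t) : s = t := by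
  have h1 : pt hX t ∈ X (fac s) := by rw [← h]; exact pt_mem_self hX s
  exact fac_inj s t ((pt_mem hX (fac_face s)).1 h1)

lemma nb_ne {t : Fin 20} {x : Fin 8} (h : x ∈ fac t) : nb t x ≠ t := by
  intro he
  have := (nb_spec h).2
  rw [he] at this
  exact this h

lemma conv_mem (hX : Geo X) {t : Fin 20} {σ S : Finset (Fin 8)} (hne : σ.Nonempty)
    (hσ : σ ⊆ fac t) (hS : S ⊆ fac t) (hd : Disjoint σ S) (μ : Fin 8 → ℝ)
    (hμ0 : ∀ x ∈ S, 0 ≤ μ x) (hμ1 : ∑ x ∈ S, μ x ≤ 1) :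
    pt hX t + ∑ x ∈ S, μ x • ee hX t x ∈ X σ := by
  have hf := isFaceM_of hne hσ
  have hc := hX.conv σ hf
  have key := hc.sum_mem (t := Finset.insertNone S)
    (w := fun o => Option.elim o (1 - ∑ x ∈ S, μ x) μ)
    (z := fun o => Option.elim o (pt hX t) (fun x => pt hX (nb t x))) (by
      intro o ho
      cases o with
      | none => exact sub_nonneg.2 hμ1
      | some x => exact hμ0 x (by simpa using ho)) (by
      rw [Finset.sum_insertNone]; simp) (by
      intro o ho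
      cases o with
      | none => exact (pt_mem hX hf).2 hσ
      | some x =>
        have hx : x ∈ S := by simpa using ho
        apply (pt_mem hX hf).2
        refine (Finset.subset_erase.2 ⟨hσ, fun h => ?_⟩).trans (nb_spec (hS hx)).1
        exact Finset.disjoint_left.1 hd h hx)
  rw [Finset.sum_insertNone] at key
  have e : pt hX t + ∑ x ∈ S, μ x • ee hX t x = (1 - ∑ x ∈ S, μ x) • pt hX t +
      ∑ x ∈ S, μ x • pt hX (nb t x) := by
    simp only [ee, smul_sub, Finset.sum_sub_distrib, sub_smul, one_smul, Finset.sum_smul]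
    abel
  rw [e]
  exact key

lemma far_indep (hX : Geo X) {t : Fin 20} (ht : ∀ s, ‖pt hX s‖ ≤ ‖pt hX t‖) (lam : Fin 8 → ℝ)
    (h : ∑ x ∈ fac t, lam x • ee hX t x = 0) : ∀ x ∈ fac t, lam x = 0 := by
  have hin : ∀ x ∈ fac t, ⟪pt hX t, ee hX t x⟫ < 0 := by
    intro x hx
    have hne : pt hX (nb t x) - pt hX t ≠ 0 := by
      rw [sub_ne_zero]
      exact fun he => nb_ne hx (pt_inj hX he)
    have h1 : 0 < ‖pt hX (nb t x) - pt hX t‖ ^ 2 := by
      have := norm_pos_iff.2 hne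
      positivity
    rw [norm_sub_sq_real] at h1
    have h2 := ht (nb t x)
    have h3 : ‖pt hX (nb t x)‖ ^ 2 ≤ ‖pt hX t‖ ^ 2 := pow_le_pow_left₀ (norm_nonneg _) h2 2
    rw [ee, inner_sub_right, real_inner_self_eq_norm_sq]
    rw [real_inner_comm] at h1
    linarith
  have hsum : ∀ S : Finset (Fin 8), ⟪pt hX t, ∑ x ∈ S, lam x • ee hX t x⟫ =
      ∑ x ∈ S, lam x * ⟪pt hX t, ee hX t x⟫ := by
    intro S
    rw [inner_sum]
    exact Finset.sum_congr rfl fun x _ => inner_smul_right _ _ _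
  classical
  set P := (fac t).filter (fun x => 0 < lam x) with hP
  set N := (fac t).filter (fun x => ¬ 0 < lam x) with hN
  have hPN : ∑ x ∈ P, lam x • ee hX t x + ∑ x ∈ N, lam x • ee hX t x = 0 := by
    rw [hP, hN, Finset.sum_filter_add_sum_filter_not]; exact h
  have hPsub : P ⊆ fac t := Finset.filter_subset _ _
  have hNsub : N ⊆ fac t := Finset.filter_subset _ _
  have hunion : P ∪ N = fac t := Finset.filter_union_filter_not_eq _ _
  have hdisj : Disjoint P N := Finset.disjoint_filter_filter_not _ _ _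
  have hPneg : P.Nonempty → ⟪pt hX t, ∑ x ∈ P, lam x • ee hX t x⟫ < 0 := by
    intro hne
    rw [hsum]
    apply Finset.sum_neg _ hne
    intro x hx
    have hx' := Finset.mem_filter.1 hx
    exact mul_neg_of_pos_of_neg hx'.2 (hin x hx'.1)
  rcases P.eq_empty_or_nonempty with hPe | hPne
  · have hle : ∀ x ∈ fac t, lam x ≤ 0 := by
      intro x hx
      by_contra hcon
      have : x ∈ P := Finset.mem_filter.2 ⟨hx, not_le.1 hcon⟩
      rw [hPe] at this
      exact absurd this (Finset.notMem_empty x)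
    have h1 : ∑ x ∈ fac t, lam x * ⟪pt hX t, ee hX t x⟫ = 0 := by
      rw [← hsum, h, inner_zero_right]
    rw [Finset.sum_eq_zero_iff_of_nonneg (fun x hx =>
      mul_nonneg_of_nonpos_of_nonpos (hle x hx) (hin x hx).le)] at h1
    intro x hx
    rcases mul_eq_zero.1 (h1 x hx) with h2 | h2
    · exact h2
    · exact absurd h2 (hin x hx).ne
  · exfalso
    rcases N.eq_empty_or_nonempty with hNe | hNne
    · rw [hNe, Finset.sum_empty, add_zero] at hPN
      have := hPneg hPne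
      rw [hPN, inner_zero_right] at this
      exact lt_irrefl _ this
    · set ε : ℝ := (1 + ∑ x ∈ fac t, |lam x|)⁻¹ with hε
      have hA : 0 ≤ ∑ x ∈ fac t, |lam x| := Finset.sum_nonneg fun x _ => abs_nonneg _
      have hεp : 0 < ε := inv_pos.2 (by linarith)
      have hbound : ∀ S ⊆ fac t, ∑ x ∈ S, ε * |lam x| ≤ 1 := by
        intro S hS
        rw [← Finset.mul_sum]
        have h1 : ∑ x ∈ S, |lam x| ≤ ∑ x ∈ fac t, |lam x| :=
          Finset.sum_le_sum_of_subset_of_nonneg hS fun x _ _ => abs_nonneg _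
        calc ε * ∑ x ∈ S, |lam x| ≤ ε * (1 + ∑ x ∈ fac t, |lam x|) :=
              mul_le_mul_of_nonneg_left (by linarith) hεp.le
          _ = 1 := inv_mul_cancel₀ (by linarith)
      have q1 := conv_mem hX hNne hNsub hPsub hdisj.symm (fun x => ε * |lam x|)
        (fun x _ => by positivity) (hbound P hPsub)
      have q2 := conv_mem hX hPne hPsub hNsub hdisj (fun x => ε * |lam x|)
        (fun x _ => by positivity) (hbound N hNsub)
      have e1 : ∑ x ∈ P, (ε * |lam x|) • ee hX t x = ε • ∑ x ∈ P, lam x • ee hX t x := by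
        rw [Finset.smul_sum]
        refine Finset.sum_congr rfl fun x hx => ?_
        rw [abs_of_pos (Finset.mem_filter.1 hx).2, smul_smul]
      have e2 : ∑ x ∈ N, (ε * |lam x|) • ee hX t x = ε • ∑ x ∈ P, lam x • ee hX t x := by
        have h3 : ∑ x ∈ P, lam x • ee hX t x = - ∑ x ∈ N, lam x • ee hX t x :=
          eq_neg_of_add_eq_zero_left hPN
        rw [h3, smul_neg, Finset.smul_sum, ← Finset.sum_neg_distrib]
        refine Finset.sum_congr rfl fun x hx => ?_
        rw [abs_of_nonpos (not_lt.1 (Finset.mem_filter.1 hx).2), smul_smul, mul_neg, neg_smul]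
      beta_reduce at q1 q2
      rw [e1] at q1
      rw [e2] at q2
      have hfN := isFaceM_of hNne hNsub
      have hfP := isFaceM_of hPne hPsub
      have h4 := (hX.inter P N hfP hfN ⟨_, q2, q1⟩).2
      rw [hunion, X_fac hX] at h4
      have h5 : pt hX t + ε • ∑ x ∈ P, lam x • ee hX t x ∈ ({pt hX t} : Set (E n)) := by
        rw [← h4]; exact ⟨q2, q1⟩
      rw [mem_singleton_iff, add_eq_left, smul_eq_zero] at h5
      rcases h5 with h5 | h5
      · exact hεp.ne' h5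
      · have := hPneg hPne
        rw [h5, inner_zero_right] at this
        exact lt_irrefl _ this

/-! ### the hyperplanes -/

/-- direction space of the cell of `u` -/
noncomputable def V (X : Finset (Fin 8) → Set (E n)) (u : Fin 8) : Submodule ℝ (E n) :=
  vectorSpan ℝ (X {u})

lemma sing_sub {u : Fin 8} {t : Fin 20} (h : u ∈ fac t) : ({u} : Finset (Fin 8)) ⊆ fac t :=
  Finset.singleton_subset_iff.2 h

lemma sing_face (u : Fin 8) : IsFaceM {u} := by
  obtain ⟨t, ht, _⟩ := pair_mem u u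
  exact ⟨Finset.singleton_nonempty u, t, sing_sub ht⟩

lemma V_finrank (hX : Geo X) (u : Fin 8) : Module.finrank ℝ (V X u) = 3 := by
  obtain ⟨t, ht, _⟩ := pair_mem u u
  have := finrank_eq hX (Finset.singleton_nonempty u) (sing_sub ht)
  rw [Finset.card_singleton] at this
  unfold V
  omega

lemma V_le_span (hX : Geo X) {t : Fin 20} {u : Fin 8} (hu : u ∈ fac t) :
    V X u ≤ Submodule.span ℝ (ee hX t '' {x | x ∈ fac t ∧ x ≠ u}) := by
  have := vS_le_span hX t 3 {u} (by simp) (Finset.singleton_nonempty u) (sing_sub hu)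
  simpa only [V, Finset.mem_singleton] using this

lemma ee_mem_V (hX : Geo X) {t : Fin 20} {u x : Fin 8} (hu : u ∈ fac t) (hx : x ∈ fac t)
    (hxu : x ≠ u) : ee hX t x ∈ V X u :=
  ee_mem hX hx (Finset.singleton_nonempty u) (sing_sub hu) (by simpa using hxu)

lemma V_eq_of (hX : Geo X) {t : Fin 20} {u v : Fin 8} (hv : v ∈ fac t)
    (h : ∀ y ∈ fac t, ee hX t y ∈ V X u) : V X v = V X u := by
  apply Submodule.eq_of_le_of_finrank_eq
  · refine (V_le_span hX hv).trans ?_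
    rw [Submodule.span_le]
    rintro _ ⟨y, ⟨hy, _⟩, rfl⟩
    exact h y hy
  · rw [V_finrank hX, V_finrank hX]

lemma V_flat (hX : Geo X) {t : Fin 20} {u v : Fin 8} (hu : u ∈ fac t) (hv : v ∈ fac t)
    (huv : u ≠ v) (h : V X u = V X v) {x : Fin 8} (hx : x ∈ fac t) : V X x = V X u := by
  apply V_eq_of hX hx
  intro y hy
  by_cases hyu : y = u
  · rw [h, hyu]; exact ee_mem_V hX hv hu huv
  · exact ee_mem_V hX hu hy hyu

lemma V_ne_far (hX : Geo X) {t : Fin 20} (ht : ∀ s, ‖pt hX s‖ ≤ ‖pt hX t‖) {u v : Fin 8}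
    (hu : u ∈ fac t) (hv : v ∈ fac t) (huv : u ≠ v) : V X u ≠ V X v := by
  intro h
  have h1 : ee hX t u ∈ Submodule.span ℝ (ee hX t '' {x | x ∈ fac t ∧ x ≠ u}) := by
    apply V_le_span hX hu
    rw [h]
    exact ee_mem_V hX hv hu huv
  have hli : LinearIndepOn ℝ (ee hX t) (fac t : Set (Fin 8)) := by
    rw [linearIndepOn_finset_iff]
    exact far_indep hX ht
  have hset : (fac t : Set (Fin 8)) = insert u {x | x ∈ fac t ∧ x ≠ u} := by
    ext x
    simp only [mem_insert_iff, mem_ofPred_eq, Finset.mem_coe]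
    by_cases hx : x = u
    · simp [hx, hu]
    · simp [hx]
  rw [hset, linearIndepOn_insert (by simp)] at hli
  exact hli.2 h1

lemma V_inj (hX : Geo X) {u v : Fin 8} (huv : u ≠ v) : V X u ≠ V X v := by
  intro h
  obtain ⟨t0, ht0⟩ := Finite.exists_max (fun t => ‖pt hX t‖)
  obtain ⟨t, hut, hvt⟩ := pair_mem u v
  obtain ⟨r, ⟨a, b, hab, ha, hb, har, hbr⟩, ⟨c, d, hcd, hc, hd, hc0, hd0⟩⟩ := two_share t t0
  have h1 : V X a = V X u := V_flat hX hut hvt huv h ha
  have h2 : V X b = V X u := V_flat hX hut hvt huv h hb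
  have h3 : V X c = V X a := V_flat hX har hbr hab (h1.trans h2.symm) hc
  have h4 : V X d = V X a := V_flat hX har hbr hab (h1.trans h2.symm) hd
  exact V_ne_far hX ht0 hc0 hd0 hcd (h3.trans h4.symm)

lemma exists_avoid (u : Fin 8) : ∃ s, u ∉ fac s := by
  revert u; decide +kernel

lemma exists_other (u : Fin 8) (t : Fin 20) : ∃ v, v ∈ fac t ∧ v ≠ u := by
  revert u t; decide +kernel

lemma ee_notMem_V (hX : Geo X) {t : Fin 20} {u : Fin 8} (hu : u ∈ fac t) :
    ee hX t u ∉ V X u := by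
  intro h
  obtain ⟨v, hv, hvu⟩ := exists_other u t
  apply V_inj hX hvu
  apply V_eq_of hX hv
  intro y hy
  by_cases hyu : y = u
  · rw [hyu]; exact h
  · exact ee_mem_V hX hu hy hyu

/-- the common four-dimensional space -/
noncomputable def W (hX : Geo X) (t : Fin 20) : Submodule ℝ (E n) :=
  Submodule.span ℝ (ee hX t '' (fac t : Set (Fin 8)))

lemma W_eq (hX : Geo X) {t : Fin 20} {a b : Fin 8} (ha : a ∈ fac t) (hb : b ∈ fac t)
    (hab : a ≠ b) : W hX t = V X a ⊔ V X b := by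
  apply le_antisymm
  · unfold W
    rw [Submodule.span_le]
    rintro _ ⟨y, hy, rfl⟩
    by_cases hya : y = a
    · apply Submodule.mem_sup_right
      rw [hya]; exact ee_mem_V hX hb ha hab
    · exact Submodule.mem_sup_left (ee_mem_V hX ha hy hya)
  · apply sup_le
    · exact (V_le_span hX ha).trans (Submodule.span_mono (image_mono fun x hx => hx.1))
    · exact (V_le_span hX hb).trans (Submodule.span_mono (image_mono fun x hx => hx.1))

lemma W_const (hX : Geo X) (t s : Fin 20) : W hX t = W hX s := by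
  obtain ⟨r, ⟨a, b, hab, ha, hb, har, hbr⟩, ⟨c, d, hcd, hc, hd, hc0, hd0⟩⟩ := two_share t s
  rw [W_eq hX ha hb hab, ← W_eq hX har hbr hab, W_eq hX hc hd hcd, ← W_eq hX hc0 hd0 hcd]

lemma V_le_W (hX : Geo X) (u : Fin 8) (s : Fin 20) : V X u ≤ W hX s := by
  obtain ⟨t, hu, _⟩ := pair_mem u u
  obtain ⟨v, hv, hvu⟩ := exists_other u t
  rw [W_const hX s t, W_eq hX hu hv hvu.symm]
  exact le_sup_left

lemma sub_mem_V (hX : Geo X) {s t : Fin 20} {u : Fin 8} (hs : u ∈ fac s) (ht : u ∈ fac t) :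
    pt hX s - pt hX t ∈ V X u := by
  apply vsub_mem_vectorSpan
  · rw [pt_mem hX (sing_face u)]; exact sing_sub hs
  · rw [pt_mem hX (sing_face u)]; exact sing_sub ht

lemma sub_mem_W (hX : Geo X) (s t r : Fin 20) : pt hX s - pt hX t ∈ W hX r := by
  obtain ⟨u, hu⟩ := fac_ne s
  obtain ⟨v, hv⟩ := fac_ne t
  obtain ⟨q, hqu, hqv⟩ := pair_mem u v
  have h1 := V_le_W hX u r (sub_mem_V hX hu hqu)
  have h2 := V_le_W hX v r (sub_mem_V hX hqv hv)
  have := Submodule.add_mem _ h1 h2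
  simpa using this

lemma exists_normal (hX : Geo X) (u : Fin 8) : ∃ a : E n, (∀ v ∈ V X u, ⟪a, v⟫ = 0) ∧
    ∀ r, ∀ w ∈ W hX r, ⟪a, w⟫ = 0 → w ∈ V X u := by
  obtain ⟨t, hu, _⟩ := pair_mem u u
  obtain ⟨y, hy, z, hz, hyz⟩ := (V X u).exists_add_mem_mem_orthogonal (ee hX t u)
  have hzne : z ≠ 0 := by
    intro h
    apply ee_notMem_V hX hu
    rw [hyz, h, add_zero]; exact hy
  have hz0 : ∀ v ∈ V X u, ⟪z, v⟫ = 0 := by
    intro v hv
    rw [real_inner_comm]
    exact (Submodule.mem_orthogonal _ _).1 hz v hv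
  have hze : ⟪z, ee hX t u⟫ ≠ 0 := by
    rw [hyz, inner_add_right, hz0 y hy, zero_add, real_inner_self_eq_norm_sq]
    have := norm_pos_iff.2 hzne
    positivity
  refine ⟨z, hz0, fun r w hw h0 => ?_⟩
  have hWle : W hX r ≤ V X u ⊔ Submodule.span ℝ {ee hX t u} := by
    rw [W_const hX r t]
    unfold W
    rw [Submodule.span_le]
    rintro _ ⟨x, hx, rfl⟩
    by_cases hxu : x = u
    · rw [hxu]
      exact Submodule.mem_sup_right (Submodule.mem_span_singleton_self _)
    · exact Submodule.mem_sup_left (ee_mem_V hX hu hx hxu)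
  obtain ⟨v, hv, c', hc', rfl⟩ := Submodule.mem_sup.1 (hWle hw)
  obtain ⟨c, rfl⟩ := Submodule.mem_span_singleton.1 hc'
  rw [inner_add_right, hz0 v hv, zero_add, inner_smul_right] at h0
  rcases mul_eq_zero.1 h0 with h | h
  · rw [h, zero_smul, add_zero]; exact hv
  · exact absurd h hze

lemma V_inf (hX : Geo X) {t : Fin 20} {u v : Fin 8} (hu : u ∈ fac t) (hv : v ∈ fac t)
    (huv : u ≠ v) : V X u ⊓ V X v ≤ vectorSpan ℝ (X {u, v}) := by
  have hsub : ({u, v} : Finset (Fin 8)) ⊆ fac t :=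
    Finset.insert_subset hu (Finset.singleton_subset_iff.2 hv)
  have hne : ({u, v} : Finset (Fin 8)).Nonempty := Finset.insert_nonempty _ _
  have hf := isFaceM_of hne hsub
  have h1 := finrank_eq hX hne hsub
  rw [Finset.card_pair huv] at h1
  have h2 : vectorSpan ℝ (X {u, v}) ≤ V X u ⊓ V X v := by
    apply le_inf
    · exact vectorSpan_mono ℝ ((hX.sub _ _ hf (sing_face u)).2 (by simp))
    · exact vectorSpan_mono ℝ ((hX.sub _ _ hf (sing_face v)).2 (by simp))
  have h3 : V X u ⊓ V X v < V X u := by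
    refine lt_of_le_of_ne inf_le_left fun he => V_inj hX huv ?_
    apply Submodule.eq_of_le_of_finrank_eq
    · rw [← he]; exact inf_le_right
    · rw [V_finrank hX, V_finrank hX]
  have h4 := Submodule.finrank_lt_finrank_of_lt h3
  rw [V_finrank hX] at h4
  have h5 := Submodule.eq_of_le_of_finrank_le h2 (by omega)
  rw [h5]

/-- the affine functionals vanishing on the hyperplanes of the cells -/
lemma exists_functional (hX : Geo X) (u : Fin 8) : ∃ a : E n, (∀ v ∈ V X u, ⟪a, v⟫ = 0) ∧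
    ∀ s t, u ∉ fac s → u ∈ fac t → 0 < ⟪a, pt hX s - pt hX t⟫ := by
  obtain ⟨a, ha0, haW⟩ := exists_normal hX u
  obtain ⟨t0, ht0, _⟩ := pair_mem u u
  set L : Fin 20 → ℝ := fun s => ⟪a, pt hX s - pt hX t0⟫ with hL
  have hLt : ∀ s t, u ∈ fac t → ⟪a, pt hX s - pt hX t⟫ = L s := by
    intro s t ht
    have : pt hX s - pt hX t = (pt hX s - pt hX t0) + (pt hX t0 - pt hX t) := by abel
    rw [this, inner_add_right, ha0 _ (sub_mem_V hX ht0 ht), add_zero]
  -- a point of the cell of `v` at which the functional vanishes lies on the common face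
  have hface : ∀ v, v ≠ u → ∀ q ∈ X {v}, ∀ t, u ∈ fac t → v ∈ fac t →
      ⟪a, q - pt hX t⟫ = 0 → q ∈ X {u, v} := by
    intro v hv q hq t hut hvt h0
    have hsub : ({u, v} : Finset (Fin 8)) ⊆ fac t :=
      Finset.insert_subset hut (Finset.singleton_subset_iff.2 hvt)
    have hf := isFaceM_of (Finset.insert_nonempty u {v}) hsub
    have h1 : q - pt hX t ∈ V X v :=
      vsub_mem_vectorSpan ℝ hq ((pt_mem hX (sing_face v)).2 (sing_sub hvt))
    have h2 : q - pt hX t ∈ V X u := haW t _ (V_le_W hX v t h1) h0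
    exact mem_of_vS hX hf (sing_face v) (by simp) ((pt_mem hX hf).2 hsub) hq
      (V_inf hX hut hvt (Ne.symm hv) ⟨h2, h1⟩)
  have hne : ∀ s, u ∉ fac s → L s ≠ 0 := by
    intro s hs h0
    obtain ⟨v, hv⟩ := fac_ne s
    have hvu : v ≠ u := fun h => hs (h ▸ hv)
    obtain ⟨t, hut, hvt⟩ := pair_mem u v
    have hf : IsFaceM {u, v} := isFaceM_of (Finset.insert_nonempty u {v})
      (Finset.insert_subset hut (Finset.singleton_subset_iff.2 hvt))
    have h1 := hface v hvu (pt hX s) ((pt_mem hX (sing_face v)).2 (sing_sub hv)) t hut hvt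
      (by rw [hLt s t hut]; exact h0)
    rw [pt_mem hX hf] at h1
    exact hs (h1 (by simp))
  have hsame : ∀ s s' v, u ∉ fac s → u ∉ fac s' → v ∈ fac s → v ∈ fac s' → 0 < L s * L s' := by
    intro s s' v hs hs' hv hv'
    have hvu : v ≠ u := fun h => hs (h ▸ hv)
    by_contra hcon
    have hlt : L s * L s' < 0 :=
      lt_of_le_of_ne (not_lt.1 hcon) (mul_ne_zero (hne s hs) (hne s' hs'))
    obtain ⟨t, hut, hvt⟩ := pair_mem u v
    have hf : IsFaceM {u, v} := isFaceM_of (Finset.insert_nonempty u {v})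
      (Finset.insert_subset hut (Finset.singleton_subset_iff.2 hvt))
    have hps : pt hX s ∈ X {v} := (pt_mem hX (sing_face v)).2 (sing_sub hv)
    have hps' : pt hX s' ∈ X {v} := (pt_mem hX (sing_face v)).2 (sing_sub hv')
    -- weights
    have hd : 0 < |L s| + |L s'| := by
      have := abs_pos.2 (hne s hs)
      have := abs_nonneg (L s')
      linarith
    set α := |L s'| / (|L s| + |L s'|) with hα
    set β := |L s| / (|L s| + |L s'|) with hβ
    have hα0 : 0 < α := div_pos (abs_pos.2 (hne s' hs')) hd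
    have hβ0 : 0 < β := div_pos (abs_pos.2 (hne s hs)) hd
    have hαβ : α + β = 1 := by
      rw [hα, hβ, ← add_div, add_comm |L s'|, div_self hd.ne']
    have hzero : α * L s + β * L s' = 0 := by
      rw [hα, hβ]
      rcases lt_or_gt_of_ne (hne s hs) with h | h
      · have h' : 0 < L s' := by
          by_contra hc
          nlinarith [not_lt.1 hc]
        rw [abs_of_neg h, abs_of_pos h']; field_simp; ring
      · have h' : L s' < 0 := by
          by_contra hc
          nlinarith [not_lt.1 hc]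
        rw [abs_of_pos h, abs_of_neg h']; field_simp; ring
    set q := α • pt hX s + β • pt hX s' with hq
    have hqv : q ∈ X {v} := hX.conv _ (sing_face v) hps hps' hα0.le hβ0.le hαβ
    have hq0 : ⟪a, q - pt hX t⟫ = 0 := by
      have : q - pt hX t = α • (pt hX s - pt hX t) + β • (pt hX s' - pt hX t) := by
        have h1 : pt hX t = (α + β) • pt hX t := by rw [hαβ, one_smul]
        conv_lhs => rw [h1]
        rw [hq, smul_sub, smul_sub, add_smul]
        abel
      rw [this, inner_add_right, inner_smul_right, inner_smul_right, hLt s t hut, hLt s' t hut]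
      exact hzero
    have hqf := hface v hvu q hqv t hut hvt hq0
    obtain ⟨b, m, hb1, hb2⟩ := hX.exposed {u, v} {v} hf (sing_face v) (by simp)
    have h1 : ⟪b, q⟫ = m := by rw [hb2] at hqf; exact hqf.2
    have h2 : ⟪b, pt hX s⟫ < m := by
      refine lt_of_le_of_ne (hb1 _ hps) fun he => ?_
      have : pt hX s ∈ X {u, v} := by rw [hb2]; exact ⟨hps, he⟩
      rw [pt_mem hX hf] at this
      exact hs (this (by simp))
    have h3 : ⟪b, pt hX s'⟫ ≤ m := hb1 _ hps'
    rw [hq, inner_add_right, inner_smul_right, inner_smul_right] at h1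
    have h4 : α * ⟪b, pt hX s⟫ < α * m := mul_lt_mul_of_pos_left h2 hα0
    have h5 : β * ⟪b, pt hX s'⟫ ≤ β * m := mul_le_mul_of_nonneg_left h3 hβ0.le
    have h6 : α * m + β * m = m := by rw [← add_mul, hαβ, one_mul]
    linarith
  have hall : ∀ s s', u ∉ fac s → u ∉ fac s' → 0 < L s * L s' := by
    intro s s' hs hs'
    obtain ⟨v, hv⟩ := fac_ne s
    obtain ⟨w, hw⟩ := fac_ne s'
    have hvu : u ≠ v := fun h => hs (h ▸ hv)
    have hwu : u ≠ w := fun h => hs' (h ▸ hw)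
    obtain ⟨r, hrv, hrw, hru⟩ := pair_avoid v w u hvu hwu
    have h1 := hsame s r v hs hru hv hrv
    have h2 := hsame r s' w hru hs' hrw hw
    have h3 : 0 < (L s * L r) * (L r * L s') := mul_pos h1 h2
    have h4 : (L s * L r) * (L r * L s') = (L r) ^ 2 * (L s * L s') := by ring
    rw [h4] at h3
    have h5 : 0 < (L r) ^ 2 := by
      have := hne r hru
      positivity
    exact (mul_pos_iff_of_pos_left h5).1 h3
  obtain ⟨s0, hs0⟩ := exists_avoid u
  refine ⟨L s0 • a, fun v hv => ?_, fun s t hs ht => ?_⟩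
  · rw [real_inner_smul_left, ha0 v hv, mul_zero]
  · rw [real_inner_smul_left, hLt s t ht]
    exact hall s0 s hs0 hs

/-! ### the final contradiction -/

/-- The sign pattern of a polytope with the dual boundary complex is contradictory. The
tetrahedra used are `ADEF, DEFG, AEFH, CEFH, ACFH, ADEG, ACDG, CDGH`. -/
lemma final (L : Fin 8 → Fin 20 → ℝ) (h0 : ∀ u s, u ∈ fac s → L u s = 0)
    (h1 : ∀ u s, u ∉ fac s → 0 < L u s)
    (hrel : ∀ u, ∃ gA gC gD gE gF : ℝ, ∀ s,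
      L u s = gA * L 0 s + gC * L 2 s + gD * L 3 s + gE * L 4 s + gF * L 5 s) : False := by
  obtain ⟨gA, gC, gD, gE, gF, hg⟩ := hrel 6
  obtain ⟨kA, kC, kD, kE, kF, hk⟩ := hrel 7
  have z : ∀ u s, u ∈ fac s → L u s = 0 := h0
  -- ADEF = 6
  have g6 := hg 6
  have k6 := hk 6
  rw [z 0 6 (by decide), z 3 6 (by decide), z 4 6 (by decide), z 5 6 (by decide)] at g6 k6
  have p6G := h1 6 6 (by decide)
  have p6H := h1 7 6 (by decide)
  have p6C := h1 2 6 (by decide)
  have gC0 : 0 < gC := by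
    by_contra hc
    nlinarith [not_lt.1 hc, mul_nonneg (neg_nonneg.2 (not_lt.1 hc)) p6C.le]
  have kC0 : 0 < kC := by
    by_contra hc
    nlinarith [not_lt.1 hc, mul_nonneg (neg_nonneg.2 (not_lt.1 hc)) p6C.le]
  -- DEFG = 19
  have g19 := hg 19
  rw [z 6 19 (by decide), z 3 19 (by decide), z 4 19 (by decide), z 5 19 (by decide)] at g19
  have p19A := h1 0 19 (by decide)
  have p19C := h1 2 19 (by decide)
  have gA0 : gA < 0 := by
    by_contra hc
    have := mul_nonneg (not_lt.1 hc) p19A.le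
    have := mul_pos gC0 p19C
    linarith
  -- AEFH = 8
  have k8 := hk 8
  rw [z 7 8 (by decide), z 0 8 (by decide), z 4 8 (by decide), z 5 8 (by decide)] at k8
  have p8C := h1 2 8 (by decide)
  have p8D := h1 3 8 (by decide)
  have kD0 : kD < 0 := by
    by_contra hc
    have := mul_nonneg (not_lt.1 hc) p8D.le
    have := mul_pos kC0 p8C
    linarith
  -- CEFH = 18
  have k18 := hk 18
  rw [z 7 18 (by decide), z 2 18 (by decide), z 4 18 (by decide), z 5 18 (by decide)] at k18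
  have p18A := h1 0 18 (by decide)
  have p18D := h1 3 18 (by decide)
  have kA0 : 0 < kA := by
    by_contra hc
    have := mul_nonneg (neg_nonneg.2 (not_lt.1 hc)) p18A.le
    have := mul_pos (neg_pos.2 kD0) p18D
    linarith
  -- ACFH = 4
  have k4 := hk 4
  rw [z 7 4 (by decide), z 0 4 (by decide), z 2 4 (by decide), z 5 4 (by decide)] at k4
  have p4D := h1 3 4 (by decide)
  have p4E := h1 4 4 (by decide)
  have kE0 : 0 < kE := by
    by_contra hc
    have := mul_nonneg (neg_nonneg.2 (not_lt.1 hc)) p4E.le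
    have := mul_pos (neg_pos.2 kD0) p4D
    linarith
  -- ADEG = 7
  have g7 := hg 7
  rw [z 6 7 (by decide), z 0 7 (by decide), z 3 7 (by decide), z 4 7 (by decide)] at g7
  have p7C := h1 2 7 (by decide)
  have p7F := h1 5 7 (by decide)
  have gF0 : gF < 0 := by
    by_contra hc
    have := mul_nonneg (not_lt.1 hc) p7F.le
    have := mul_pos gC0 p7C
    linarith
  -- ACDG = 3
  have g3 := hg 3
  have k3 := hk 3
  rw [z 6 3 (by decide), z 0 3 (by decide), z 2 3 (by decide), z 3 3 (by decide)] at g3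
  rw [z 0 3 (by decide), z 2 3 (by decide), z 3 3 (by decide)] at k3
  have p3E := h1 4 3 (by decide)
  have p3F := h1 5 3 (by decide)
  have p3H := h1 7 3 (by decide)
  have gE0 : 0 < gE := by
    by_contra hc
    have := mul_nonneg (neg_nonneg.2 (not_lt.1 hc)) p3E.le
    have := mul_pos (neg_pos.2 gF0) p3F
    linarith
  have m1 : 0 < (gE * kF - kE * gF) * L 5 3 := by
    have e1 : (gE * kF - kE * gF) * L 5 3 = gE * L 7 3 := by
      have e2 : gE * L 4 3 = - (gF * L 5 3) := by linarith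
      calc (gE * kF - kE * gF) * L 5 3 = gE * (kF * L 5 3) + kE * (-(gF * L 5 3)) := by ring
        _ = gE * (kF * L 5 3) + kE * (gE * L 4 3) := by rw [e2]
        _ = gE * L 7 3 := by rw [k3]; ring
    rw [e1]; exact mul_pos gE0 p3H
  have m2 : 0 < gE * kF - kE * gF := (mul_pos_iff_of_pos_right p3F).1 m1
  -- CDGH = 17
  have g17 := hg 17
  have k17 := hk 17
  rw [z 6 17 (by decide), z 2 17 (by decide), z 3 17 (by decide)] at g17
  rw [z 7 17 (by decide), z 2 17 (by decide), z 3 17 (by decide)] at k17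
  have p17A := h1 0 17 (by decide)
  have p17F := h1 5 17 (by decide)
  have m3 : (gE * kA - kE * gA) * L 0 17 + (gE * kF - kE * gF) * L 5 17 = 0 := by
    have e1 : gA * L 0 17 + gE * L 4 17 + gF * L 5 17 = 0 := by linarith
    have e2 : kA * L 0 17 + kE * L 4 17 + kF * L 5 17 = 0 := by linarith
    linear_combination gE * e2 - kE * e1
  have m4 : 0 < gE * kA - kE * gA := by
    have := mul_pos gE0 kA0
    have := mul_pos kE0 (neg_pos.2 gA0)
    linarith
  have m5 := mul_pos m4 p17A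
  have m6 := mul_pos m2 p17F
  linarith

lemma geo_false (hX : Geo X) : False := by
  choose a ha0 ha using exists_functional hX
  choose τ hτ using fun u => pair_mem u u
  have hτ' : ∀ u, u ∈ fac (τ u) := fun u => (hτ u).1
  apply final (fun u s => ⟪a u, pt hX s - pt hX (τ u)⟫)
  · intro u s hu
    exact ha0 u _ (sub_mem_V hX hu (hτ' u))
  · intro u s hu
    exact ha u s (τ u) hu (hτ' u)
  · intro u
    -- coordinates with respect to the edges at `ADEF`
    have hf6 : (fac 6 : Set (Fin 8)) = {0, 3, 4, 5} := by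
      ext x; fin_cases x <;> simp [fac]
    have hcoord : ∀ s, ∃ c0 c3 c4 c5 : ℝ, pt hX s - pt hX 6 =
        c0 • ee hX 6 0 + c3 • ee hX 6 3 + c4 • ee hX 6 4 + c5 • ee hX 6 5 := by
      intro s
      have h := sub_mem_W hX s 6 6
      unfold W at h
      rw [hf6, image_insert_eq, image_insert_eq, image_insert_eq, image_singleton,
        Submodule.mem_span_insert] at h
      obtain ⟨c0, z0, hz0, e0⟩ := h
      rw [Submodule.mem_span_insert] at hz0
      obtain ⟨c3, z3, hz3, e3⟩ := hz0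
      rw [Submodule.mem_span_insert] at hz3
      obtain ⟨c4, z4, hz4, e4⟩ := hz3
      obtain ⟨c5, hc5⟩ := Submodule.mem_span_singleton.1 hz4
      exact ⟨c0, c3, c4, c5, by rw [e0, e3, e4, ← hc5]; abel⟩
    have hL : ∀ v s, ⟪a v, pt hX s - pt hX (τ v)⟫ =
        ⟪a v, pt hX 6 - pt hX (τ v)⟫ + ⟪a v, pt hX s - pt hX 6⟫ := by
      intro v s
      rw [← inner_add_right]
      congr 1
      abel
    have hm : ∀ v ∈ fac 6, ⟪a v, pt hX 6 - pt hX (τ v)⟫ = 0 := fun v hv =>
      ha0 v _ (sub_mem_V hX hv (hτ' v))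
    have hee : ∀ v ∈ fac 6, ∀ y ∈ fac 6, y ≠ v → ⟪a v, ee hX 6 y⟫ = 0 := fun v hv y hy hyv =>
      ha0 v _ (ee_mem_V hX hv hy hyv)
    have hpos : ∀ v ∈ fac 6, 0 < ⟪a v, ee hX 6 v⟫ := fun v hv =>
      ha v (nb 6 v) 6 (nb_spec hv).2 hv
    have hC : 0 < ⟪a 2, pt hX 6 - pt hX (τ 2)⟫ := ha 2 6 (τ 2) (by decide) (hτ' 2)
    set κ := ⟪a u, pt hX 6 - pt hX (τ u)⟫ / ⟪a 2, pt hX 6 - pt hX (τ 2)⟫ with hκ
    have hκ' : κ * ⟪a 2, pt hX 6 - pt hX (τ 2)⟫ = ⟪a u, pt hX 6 - pt hX (τ u)⟫ := by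
      rw [hκ, div_mul_cancel₀ _ hC.ne']
    refine ⟨(⟪a u, ee hX 6 0⟫ - κ * ⟪a 2, ee hX 6 0⟫) / ⟪a 0, ee hX 6 0⟫, κ,
      (⟪a u, ee hX 6 3⟫ - κ * ⟪a 2, ee hX 6 3⟫) / ⟪a 3, ee hX 6 3⟫,
      (⟪a u, ee hX 6 4⟫ - κ * ⟪a 2, ee hX 6 4⟫) / ⟪a 4, ee hX 6 4⟫,
      (⟪a u, ee hX 6 5⟫ - κ * ⟪a 2, ee hX 6 5⟫) / ⟪a 5, ee hX 6 5⟫, fun s => ?_⟩
    obtain ⟨c0, c3, c4, c5, hc⟩ := hcoord s
    have m0 : (0 : Fin 8) ∈ fac 6 := by decide
    have m3 : (3 : Fin 8) ∈ fac 6 := by decide
    have m4 : (4 : Fin 8) ∈ fac 6 := by decide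
    have m5 : (5 : Fin 8) ∈ fac 6 := by decide
    have p0 := (hpos 0 m0).ne'
    have p3 := (hpos 3 m3).ne'
    have p4 := (hpos 4 m4).ne'
    have p5 := (hpos 5 m5).ne'
    have L0 : ⟪a 0, pt hX s - pt hX (τ 0)⟫ = c0 * ⟪a 0, ee hX 6 0⟫ := by
      rw [hL 0 s, hm 0 m0, hc]
      simp only [inner_add_right, inner_smul_right]
      rw [hee 0 m0 3 m3 (by decide), hee 0 m0 4 m4 (by decide), hee 0 m0 5 m5 (by decide)]
      ring
    have L3 : ⟪a 3, pt hX s - pt hX (τ 3)⟫ = c3 * ⟪a 3, ee hX 6 3⟫ := by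
      rw [hL 3 s, hm 3 m3, hc]
      simp only [inner_add_right, inner_smul_right]
      rw [hee 3 m3 0 m0 (by decide), hee 3 m3 4 m4 (by decide), hee 3 m3 5 m5 (by decide)]
      ring
    have L4 : ⟪a 4, pt hX s - pt hX (τ 4)⟫ = c4 * ⟪a 4, ee hX 6 4⟫ := by
      rw [hL 4 s, hm 4 m4, hc]
      simp only [inner_add_right, inner_smul_right]
      rw [hee 4 m4 0 m0 (by decide), hee 4 m4 3 m3 (by decide), hee 4 m4 5 m5 (by decide)]
      ring
    have L5 : ⟪a 5, pt hX s - pt hX (τ 5)⟫ = c5 * ⟪a 5, ee hX 6 5⟫ := by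
      rw [hL 5 s, hm 5 m5, hc]
      simp only [inner_add_right, inner_smul_right]
      rw [hee 5 m5 0 m0 (by decide), hee 5 m5 3 m3 (by decide), hee 5 m5 4 m4 (by decide)]
      ring
    show ⟪a u, pt hX s - pt hX (τ u)⟫ = _
    rw [L0, L3, L4, L5, hL u s, hL 2 s, ← hκ', hc]
    simp only [inner_add_right, inner_smul_right]
    field_simp
    ring

/-- `M*` is not a 3-complex: no 3-complex in any `ℝ^n` is combinatorially equivalent to the dual
cell complex of `M`. -/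
theorem result : ∀ n : ℕ, ¬ ∃ C : Set (Set (E n)), IsThreeComplex C ∧
    ∃ φ : {σ : Finset (Fin 8) // IsFaceM σ} ≃ C,
      ∀ σ τ, (φ σ : Set (E n)) ⊆ φ τ ↔ (τ : Finset (Fin 8)) ⊆ σ := by
  rintro n ⟨C, hC, φ, hφ⟩
  obtain ⟨X, hX⟩ := geo_of_complex hC φ hφ
  exact geo_false hX

end Pool.Agent.Results.MP_a4d28a_co.NotComplex
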